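import Mathlib

/-!
# Friends-and-strangers graphs of complete bipartite graphs: basic definitions

Tokens `t : T` have a colour `col t : Bool`. A state is a placement `σ : T ≃ V` of the tokens on the
vertices of `Y`. A move exchanges two tokens of different colours which sit on adjacent vertices of
`Y`. The token on the vertex `x` is `σ.symm x`, its colour is `pc col σ x`.
-/

set_option autoImplicit false

namespace Pool.Agent.H83.FS

open SimpleGraph

/-- The friends-and-strangers graph `FS(X, Y)`: its vertices are the bijections `V(X) → V(Y)`; `σ`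
and `τ` are adjacent if there is an edge `ab` of `X` such that `σ a` and `σ b` are adjacent in `Y`
and `τ` is `σ` with the values at `a` and `b` exchanged. -/
def FSGraph {A B : Type*} (X : SimpleGraph A) (Y : SimpleGraph B) : SimpleGraph (A ≃ B) where
  Adj σ τ := ∃ a b, X.Adj a b ∧ Y.Adj (σ a) (σ b) ∧ τ a = σ b ∧ τ b = σ a ∧
    ∀ c, c ≠ a → c ≠ b → τ c = σ c
  symm := by
    constructor
    rintro σ τ ⟨a, b, h1, h2, h3, h4, h5⟩
    refine ⟨a, b, h1, ?_, h4.symm, h3.symm, fun c hc hc' => (h5 c hc hc').symm⟩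
    rw [h3, h4]
    exact h2.symm
  loopless := by
    constructor
    rintro σ ⟨a, b, h1, h2, h3, h4, h5⟩
    rw [h3] at h2
    exact Y.loopless.irrefl _ h2

/-- A non-trivial `k`-bridge of `Y`: a path `v 0, ..., v (k - 1)` all edges of which are cut edges
(bridges) of `Y`, whose inner vertices have degree two and whose two ends have degree at least
two. -/
def HasBridge {V : Type*} (Y : SimpleGraph V) (k : ℕ) : Prop :=
  ∃ v : ℕ → V, (∀ i j, i < k → j < k → v i = v j → i = j) ∧
    (∀ i, i + 1 < k → Y.Adj (v i) (v (i + 1)) ∧ Y.IsBridge s(v i, v (i + 1))) ∧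
    (∀ i, 0 < i → i + 1 < k → (Y.neighborSet (v i)).ncard = 2) ∧
    2 ≤ (Y.neighborSet (v 0)).ncard ∧ 2 ≤ (Y.neighborSet (v (k - 1))).ncard

/-- The complete bipartite graph on the tokens: tokens of different colours are adjacent. -/
def tg {T : Type*} (col : T → Bool) : SimpleGraph T where
  Adj a b := col a ≠ col b
  symm := ⟨fun _ _ h => h.symm⟩
  loopless := ⟨fun _ h => h rfl⟩

/-- `τ` can be reached from `σ`. -/
def Rch {V T : Type*} (Y : SimpleGraph V) (col : T → Bool) (σ τ : T ≃ V) : Prop :=
  (FSGraph (tg col) Y).Reachable σ τ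

/-- The colour of the token on the vertex `x`. -/
def pc {V T : Type*} (col : T → Bool) (σ : T ≃ V) (x : V) : Bool := col (σ.symm x)

/-- `b` and `b'` are linked: for two tokens `a ≠ a'` of the other colour, the state in which `b`,
`b'` are exchanged and `a`, `a'` are exchanged can be reached. -/
def Lk {V T : Type*} [DecidableEq T] (Y : SimpleGraph V) (col : T → Bool) (σ : T ≃ V)
    (b b' : T) : Prop :=
  ∃ a a' : T, a ≠ a' ∧ col a = !(col b) ∧ col a' = !(col b) ∧
    Rch Y col σ ((Equiv.swap a a' * Equiv.swap b b').trans σ)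

/-- `b ≠ b'` have the same colour and are not linked. -/
def D {V T : Type*} [DecidableEq T] (Y : SimpleGraph V) (col : T → Bool) (σ : T ≃ V)
    (b b' : T) : Prop :=
  b ≠ b' ∧ col b = col b' ∧ ¬ Lk Y col σ b b'

/-- `b` and `b'` have the same colour, are not linked, and sit on adjacent vertices. -/
def FSt {V T : Type*} [DecidableEq T] (Y : SimpleGraph V) (col : T → Bool) (σ : T ≃ V)
    (b b' : T) : Prop :=
  D Y col σ b b' ∧ Y.Adj (σ b) (σ b')

/-- `x` and `y` are connected by a walk inside the set `P`. -/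
def Cn {V : Type*} (Y : SimpleGraph V) (P : V → Prop) : V → V → Prop :=
  Relation.ReflTransGen fun x y => Y.Adj x y ∧ P x ∧ P y

/-- `x` and `y` are connected by a walk which avoids `u` and `v`. -/
def Av {V : Type*} (Y : SimpleGraph V) (u v : V) : V → V → Prop :=
  Cn Y fun x => x ≠ u ∧ x ≠ v

theorem Cn.refl {V : Type*} {Y : SimpleGraph V} {P : V → Prop} (x : V) : Cn Y P x x :=
  Relation.ReflTransGen.refl

theorem Cn.trans {V : Type*} {Y : SimpleGraph V} {P : V → Prop} {x y z : V} (h : Cn Y P x y)
    (h' : Cn Y P y z) : Cn Y P x z := Relation.ReflTransGen.trans h h'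

theorem Cn.symm {V : Type*} {Y : SimpleGraph V} {P : V → Prop} {x y : V} (h : Cn Y P x y) :
    Cn Y P y x := by
  unfold Cn at *
  induction h with
  | refl => exact Relation.ReflTransGen.refl
  | tail _ h2 ih => exact Relation.ReflTransGen.head ⟨h2.1.symm, h2.2.2, h2.2.1⟩ ih

theorem Cn.single {V : Type*} {Y : SimpleGraph V} {P : V → Prop} {x y : V} (h : Y.Adj x y)
    (hx : P x) (hy : P y) : Cn Y P x y := Relation.ReflTransGen.single ⟨h, hx, hy⟩

/-- The endpoint of a walk in `P` which starts in `P` is in `P`. -/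
theorem Cn.mem {V : Type*} {Y : SimpleGraph V} {P : V → Prop} {x y : V} (h : Cn Y P x y)
    (hx : P x) : P y := by
  unfold Cn at h
  induction h with
  | refl => exact hx
  | tail _ h2 _ => exact h2.2.2

theorem Cn.mono {V : Type*} {Y : SimpleGraph V} {P Q : V → Prop} (hPQ : ∀ x, P x → Q x) {x y : V}
    (h : Cn Y P x y) : Cn Y Q x y := by
  unfold Cn at *
  induction h with
  | refl => exact Relation.ReflTransGen.refl
  | tail _ h2 ih => exact Relation.ReflTransGen.tail ih ⟨h2.1, hPQ _ h2.2.1, hPQ _ h2.2.2⟩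

section

variable {V T : Type*} {Y : SimpleGraph V} {col : T → Bool} {σ τ υ : T ≃ V}

theorem Rch.refl (Y : SimpleGraph V) (col : T → Bool) (σ : T ≃ V) : Rch Y col σ σ :=
  SimpleGraph.Reachable.refl σ

theorem Rch.symm (h : Rch Y col σ τ) : Rch Y col τ σ := SimpleGraph.Reachable.symm h

theorem Rch.trans (h : Rch Y col σ τ) (h' : Rch Y col τ υ) : Rch Y col σ υ :=
  SimpleGraph.Reachable.trans h h'

/-- A move: exchange the tokens on the adjacent vertices `x` and `y`, if they have different
colours. -/
theorem move [DecidableEq V] {x y : V} (hxy : Y.Adj x y) (hc : pc col σ x ≠ pc col σ y) :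
    Rch Y col σ (σ.trans (Equiv.swap x y)) := by
  refine SimpleGraph.Adj.reachable ⟨σ.symm x, σ.symm y, hc, ?_, ?_, ?_, ?_⟩
  · simpa using hxy
  · simp
  · simp
  · intro c h1 h2
    have h3 : σ c ≠ x := fun h => h1 (by rw [← h, Equiv.symm_apply_apply])
    have h4 : σ c ≠ y := fun h => h2 (by rw [← h, Equiv.symm_apply_apply])
    simp [Equiv.swap_apply_of_ne_of_ne h3 h4]

/-- The same move, seen from the tokens. -/
theorem move' [DecidableEq T] {a b : T} (hab : Y.Adj (σ a) (σ b)) (hc : col a ≠ col b) :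
    Rch Y col σ ((Equiv.swap a b).trans σ) := by
  refine SimpleGraph.Adj.reachable ⟨a, b, hc, hab, ?_, ?_, ?_⟩
  · simp
  · simp
  · intro c h1 h2
    simp [Equiv.swap_apply_of_ne_of_ne h1 h2]

/-- The tokens after a move. -/
@[simp] theorem move_symm_apply [DecidableEq V] (σ : T ≃ V) (x y z : V) :
    (σ.trans (Equiv.swap x y)).symm z = σ.symm (Equiv.swap x y z) := by
  simp

/-- The colours after a move. -/
theorem pc_move [DecidableEq V] (σ : T ≃ V) (x y z : V) :
    pc col (σ.trans (Equiv.swap x y)) z = pc col σ (Equiv.swap x y z) := by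
  simp [pc]

/-- Relabelling the tokens by a colour-preserving permutation is an automorphism. -/
theorem Rch.relabel (h : Rch Y col σ τ) (ρ : Equiv.Perm T) (hρ : ∀ t, col (ρ t) = col t) :
    Rch Y col (ρ.trans σ) (ρ.trans τ) := by
  unfold Rch at *
  obtain ⟨w⟩ := h
  induction w with
  | nil => exact SimpleGraph.Reachable.refl _
  | cons hadj _ ih =>
    refine SimpleGraph.Reachable.trans (SimpleGraph.Adj.reachable ?_) ih
    obtain ⟨a, b, h1, h2, h3, h4, h5⟩ := hadj
    refine ⟨ρ.symm a, ρ.symm b, ?_, ?_, ?_, ?_, ?_⟩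
    · change col (ρ.symm a) ≠ col (ρ.symm b)
      rw [← hρ (ρ.symm a), ← hρ (ρ.symm b), Equiv.apply_symm_apply, Equiv.apply_symm_apply]
      exact h1
    · simpa using h2
    · simpa using h3
    · simpa using h4
    · intro c hc1 hc2
      have h6 : ρ c ≠ a := fun h => hc1 (by rw [← h, Equiv.symm_apply_apply])
      have h7 : ρ c ≠ b := fun h => hc2 (by rw [← h, Equiv.symm_apply_apply])
      simpa using h5 (ρ c) h6 h7

end

end Pool.Agent.H83.FS
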