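import Pool.Agent.H83.FS.Stm

/-! A finite connected graph in which every vertex has exactly two neighbours is a cycle. -/

set_option autoImplicit false

namespace Pool.Agent.H955.FS83

open SimpleGraph Pool.Agent.H83.FS

theorem cyc : S_cyc := by
  classical
  intro V _ Y hconn hreg
  obtain ⟨v⟩ : Nonempty V := hconn.nonempty
  have hcyc : Y.IsCycles := fun x _ => hreg x
  have hne : (Y.neighborSet v).Nonempty := by
    rw [← Set.ncard_pos (Set.toFinite _), hreg v]; norm_num
  obtain ⟨p, hp, hverts⟩ := hcyc.exists_cycle_toSubgraph_verts_eq_connectedComponentSupp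
    (c := Y.connectedComponentMk v) rfl hne
  have hall : ∀ x, x ∈ p.support := by
    intro x
    rw [← Walk.mem_verts_toSubgraph, hverts, ConnectedComponent.mem_supp_iff,
      ConnectedComponent.eq]
    exact hconn.preconnected x v
  have htail : ∀ x, x ∈ p.support.tail := by
    intro x
    have h := hall x
    rw [← Walk.cons_tail_support, List.mem_cons] at h
    rcases h with h | h
    · rw [h]; exact Walk.end_mem_tail_support hp.not_nil
    · exact h
  have hnd : p.support.tail.Nodup := hp.support_nodup
  have hlen : p.length = Fintype.card V := by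
    have h1 : p.support.tail.toFinset = Finset.univ := by
      ext x; simp [htail x]
    have h2 : p.support.tail.length = p.length := by
      rw [List.length_tail, Walk.length_support]; rfl
    rw [← h2, ← List.toFinset_card_of_nodup hnd, h1, Finset.card_univ]
  have h3 : 3 ≤ p.length := hp.three_le_length
  obtain ⟨n, hn⟩ : ∃ n, Fintype.card V = n + 3 := ⟨Fintype.card V - 3, by omega⟩
  rw [hn] at hlen ⊢
  let φ : Fin (n + 3) → V := fun i => p.getVert i
  have hinj : Function.Injective φ := by
    intro i j hij
    have := hp.getVert_injOn' (by rw [Set.mem_ofPred_eq, hlen]; omega)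
      (by rw [Set.mem_ofPred_eq, hlen]; omega) hij
    exact Fin.ext this
  have hbij : Function.Bijective φ :=
    (Fintype.bijective_iff_injective_and_card φ).2 ⟨hinj, by rw [Fintype.card_fin, hn]⟩
  have hsucc : ∀ i, Y.Adj (φ i) (φ (i + 1)) := by
    intro i
    have h := p.adj_getVert_succ (i := (i : ℕ)) (by rw [hlen]; exact i.2)
    by_cases hi : (i : ℕ) + 1 < n + 3
    · have e : ((i + 1 : Fin (n + 3)) : ℕ) = i + 1 := by
        rw [Fin.val_add]
        simp only [Fin.val_one, Nat.mod_eq_of_lt hi]
      show Y.Adj (p.getVert i) (p.getVert ((i + 1 : Fin (n + 3)) : ℕ))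
      rw [e]; exact h
    · have hi' : (i : ℕ) + 1 = n + 3 := by omega
      have e : ((i + 1 : Fin (n + 3)) : ℕ) = 0 := by
        rw [Fin.val_add]
        simp only [Fin.val_one, hi', Nat.mod_self]
      show Y.Adj (p.getVert i) (p.getVert ((i + 1 : Fin (n + 3)) : ℕ))
      rw [e, Walk.getVert_zero]
      have e2 : (i : ℕ) + 1 = p.length := by omega
      rw [e2, Walk.getVert_length] at h
      exact h
  have hnb : ∀ i, Y.neighborSet (φ i) = {φ (i + 1), φ (i - 1)} := by
    intro i
    symm
    apply Set.eq_of_subset_of_ncard_le _ _ (Set.toFinite _)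
    · rintro x (rfl | rfl)
      · exact hsucc i
      · have := hsucc (i - 1)
        rw [sub_add_cancel] at this
        exact this.symm
    · rw [hreg, Set.ncard_pair]
      intro h
      have h1 := hinj h
      rw [eq_sub_iff_add_eq, add_assoc, add_eq_left] at h1
      have h2 := congrArg Fin.val h1
      rw [Fin.val_add] at h2
      simp only [Fin.val_one, Fin.val_zero] at h2
      rw [Nat.mod_eq_of_lt (by omega)] at h2
      omega
  refine ⟨(RelIso.symm ⟨Equiv.ofBijective φ hbij, ?_⟩ : Y ≃g cycleGraph (n + 3))⟩
  intro i j
  show Y.Adj (φ i) (φ j) ↔ (cycleGraph (n + 1 + 2)).Adj i j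
  rw [cycleGraph_adj, ← mem_neighborSet, hnb]
  simp only [Set.mem_insert_iff, Set.mem_singleton_iff]
  constructor
  · rintro (h | h)
    · right; rw [hinj h]; abel
    · left; rw [hinj h]; abel
  · rintro (h | h)
    · right; rw [← h]; congr 1; abel
    · left; rw [← h]; congr 1; abel

end Pool.Agent.H955.FS83
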