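import Pool.Agent.H83.FS.Stm

/-!
# Friends and strangers: the group theory part (project of helper83)
-/

set_option autoImplicit false

namespace Pool.Agent.H860.FS83

open Equiv

section normal

variable {B : Type} [DecidableEq B] {N : Subgroup (Perm B)}

/-- The two transpositions agree modulo `N`. -/
def E (N : Subgroup (Perm B)) (x y z w : B) : Prop := swap x y * swap z w ∈ N

theorem E.refl (N : Subgroup (Perm B)) (x y : B) : E N x y x y := by
  unfold E
  rw [swap_mul_self]
  exact N.one_mem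

theorem E.symm {x y z w : B} (h : E N x y z w) : E N z w x y := by
  unfold E at *
  have := N.inv_mem h
  rwa [mul_inv_rev, swap_inv, swap_inv] at this

theorem E.trans {x y z w u v : B} (h : E N x y z w) (h' : E N z w u v) : E N x y u v := by
  unfold E at *
  have := N.mul_mem h h'
  rwa [mul_assoc, ← mul_assoc (swap z w), swap_mul_self, one_mul] at this

theorem E.conj [hN : N.Normal] {x y z w : B} (h : E N x y z w) (g : Perm B) :
    E N (g x) (g y) (g z) (g w) := by
  unfold E at *
  have := hN.conj_mem _ h g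
  rw [swap_apply_apply, swap_apply_apply]
  have e : g * swap x y * g⁻¹ * (g * swap z w * g⁻¹) = g * (swap x y * swap z w) * g⁻¹ := by
    group
  rw [e]
  exact this

theorem star [hN : N.Normal] {π : Perm B} (hπ : π ∈ N) (b c : B) : E N (π b) (π c) b c := by
  unfold E
  have h1 := N.mul_mem hπ (hN.conj_mem _ (N.inv_mem hπ) (swap b c))
  rw [swap_inv] at h1
  rw [swap_apply_apply]
  have e : π * swap b c * π⁻¹ * swap b c = π * (swap b c * π⁻¹ * swap b c) := by group
  rw [e]
  exact h1

theorem three {b0 c0 e0 b c e : B} (h1 : b0 ≠ c0) (h2 : b0 ≠ e0) (h3 : c0 ≠ e0) (h4 : b ≠ c)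
    (h5 : b ≠ e) (h6 : c ≠ e) : ∃ g : Perm B, g b0 = b ∧ g c0 = c ∧ g e0 = e := by
  obtain ⟨g1, hg1⟩ : ∃ g : Perm B, g = swap b0 b := ⟨_, rfl⟩
  have a1 : g1 b0 = b := by rw [hg1, swap_apply_left]
  obtain ⟨g2, hg2⟩ : ∃ g : Perm B, g = swap (g1 c0) c := ⟨_, rfl⟩
  have a2 : g2 (g1 c0) = c := by rw [hg2, swap_apply_left]
  have a3 : g2 b = b := by
    rw [hg2, swap_apply_of_ne_of_ne _ h4]
    intro h
    rw [← a1] at h
    exact h1 (g1.injective h)
  obtain ⟨g3, hg3⟩ : ∃ g : Perm B, g = swap (g2 (g1 e0)) e := ⟨_, rfl⟩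
  have a4 : g3 (g2 (g1 e0)) = e := by rw [hg3, swap_apply_left]
  have a5 : g3 b = b := by
    rw [hg3, swap_apply_of_ne_of_ne _ h5]
    intro h
    have h' : g2 (g1 b0) = g2 (g1 e0) := by rw [a1, a3]; exact h
    exact h2 (g1.injective (g2.injective h'))
  have a6 : g3 c = c := by
    rw [hg3, swap_apply_of_ne_of_ne _ h6]
    intro h
    have h' : g2 (g1 c0) = g2 (g1 e0) := by rw [a2]; exact h
    exact h3 (g1.injective (g2.injective h'))
  refine ⟨g3 * g2 * g1, ?_, ?_, ?_⟩
  · rw [Perm.mul_apply, Perm.mul_apply, a1, a3, a5]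
  · rw [Perm.mul_apply, Perm.mul_apply, a2, a6]
  · rw [Perm.mul_apply, Perm.mul_apply, a4]

theorem all_of [Fintype B] [hN : N.Normal] {π : Perm B} (hπ : π ∈ N) (hs : Perm.sign π = -1)
    {b0 c0 e0 : B} (h1 : b0 ≠ c0) (h2 : b0 ≠ e0) (h3 : c0 ≠ e0) (h : E N b0 c0 b0 e0)
    (x y : B) : swap x y ∈ N := by
  have key : ∀ b c e : B, b ≠ c → b ≠ e → E N b c b e := by
    intro b c e h4 h5
    by_cases h6 : c = e
    · rw [h6]
      exact E.refl N b e
    · obtain ⟨g, g1, g2, g3⟩ := three h1 h2 h3 h4 h5 h6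
      have := h.conj g
      rwa [g1, g2, g3] at this
  have all : ∀ b c : B, b ≠ c → E N b c b0 c0 := by
    intro b c hbc
    by_cases hb : b = b0
    · rw [hb] at hbc ⊢
      exact key b0 c c0 hbc h1
    · have h7 : E N b c b b0 := key b c b0 hbc hb
      refine h7.trans ?_
      have h8 : E N b0 b b0 c0 := key b0 b c0 (Ne.symm hb) h1
      unfold E at h8 ⊢
      rwa [swap_comm b b0]
  have par : ∀ g : Perm B, (Perm.sign g = 1 → g ∈ N) ∧
      (Perm.sign g = -1 → swap b0 c0 * g ∈ N) := by
    intro g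
    induction g using Perm.swap_induction_on with
    | one =>
      refine ⟨fun _ => N.one_mem, fun h => ?_⟩
      rw [Perm.sign_one] at h
      exact absurd h (by decide)
    | swap_mul f x y hxy ih =>
      rw [Perm.sign_mul, Perm.sign_swap hxy]
      constructor
      · intro h9
        have h10 : Perm.sign f = -1 := by
          have : -Perm.sign f = 1 := by rw [← h9]; simp
          rw [← this]; simp
        have h11 := N.mul_mem (all x y hxy) (ih.2 h10)
        rwa [mul_assoc, ← mul_assoc (swap b0 c0), swap_mul_self, one_mul] at h11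
      · intro h9
        have h10 : Perm.sign f = 1 := by
          have : -Perm.sign f = -1 := by rw [← h9]; simp
          simpa using this
        have h11 := N.mul_mem (all x y hxy).symm (ih.1 h10)
        rwa [mul_assoc] at h11
  have ht : swap b0 c0 ∈ N := (N.mul_mem_cancel_right hπ).1 ((par π).2 hs)
  by_cases hxy : x = y
  · rw [hxy, swap_self]
    exact N.one_mem
  · exact (N.mul_mem_cancel_right ht).1 (all x y hxy)

theorem swap_mem [Fintype B] [hN : N.Normal] {π : Perm B} (hπ : π ∈ N)
    (hs : Perm.sign π = -1) (x y : B) : swap x y ∈ N := by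
  by_cases c1 : ∃ b c : B, π c = c ∧ π b ≠ b
  · obtain ⟨b, c, hc, hb⟩ := c1
    have h := star hπ b c
    rw [hc] at h
    have hbc : b ≠ c := by
      rintro rfl
      exact hb hc
    have hpc : π b ≠ c := by
      intro h
      rw [← hc] at h
      exact hbc (π.injective h)
    have h' : E N c (π b) c b := by
      unfold E at h ⊢
      rwa [swap_comm c (π b), swap_comm c b]
    exact all_of hπ hs (Ne.symm hpc) (Ne.symm hbc) hb h' x y
  by_cases c2 : ∃ b : B, π (π b) ≠ b
  · obtain ⟨b, hb⟩ := c2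
    have hpi : π (π⁻¹ b) = b := π.apply_symm_apply b
    have h := star hπ b (π⁻¹ b)
    rw [hpi] at h
    have h1 : π b ≠ b := by
      intro h1
      exact hb (by rw [h1, h1])
    have h2 : b ≠ π⁻¹ b := by
      intro h2
      apply h1
      conv_lhs => rw [h2]
      exact hpi
    have h3 : π b ≠ π⁻¹ b := by
      intro h3
      apply hb
      rw [h3]
      exact hpi
    have h' : E N b (π b) b (π⁻¹ b) := by
      unfold E at h ⊢
      rwa [swap_comm b (π b)]
    exact all_of hπ hs (Ne.symm h1) h2 h3 h' x y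
  push Not at c1 c2
  -- `π` is an involution without fixed points
  have hne : ∃ b : B, π b ≠ b := by
    by_contra hcon
    push Not at hcon
    have : π = 1 := by
      ext b
      exact hcon b
    rw [this, Perm.sign_one] at hs
    exact absurd hs (by decide)
  obtain ⟨b, hb⟩ := hne
  have hfix : ∀ c : B, π c ≠ c := fun c hc => hb (c1 b c hc)
  by_cases c3 : ∃ c : B, c ≠ b ∧ c ≠ π b
  · obtain ⟨c, hcb, hcb'⟩ := c3
    have d1 : π c ≠ b := by
      intro h
      apply hcb'
      rw [← h, c2]
    have d2 : π c ≠ π b := fun h => hcb (π.injective h)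
    by_cases c4 : ∃ e : B, e ≠ b ∧ e ≠ π b ∧ e ≠ c ∧ e ≠ π c
    · obtain ⟨e, e1, e2, e3, e4⟩ := c4
      have h1 := star hπ b c
      have h2 := h1.conj (swap c e)
      rw [swap_apply_of_ne_of_ne (Ne.symm hcb') (Ne.symm e2),
        swap_apply_of_ne_of_ne (hfix c) (Ne.symm e4),
        swap_apply_of_ne_of_ne (Ne.symm hcb) (Ne.symm e1), swap_apply_left] at h2
      exact all_of hπ hs (Ne.symm hcb) (Ne.symm e1) (Ne.symm e3) (h1.symm.trans h2) x y
    · exfalso
      push Not at c4
      have : π = swap b (π b) * swap c (π c) := by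
        ext z
        rw [Perm.mul_apply]
        by_cases z1 : z = b
        · subst z1
          rw [swap_apply_of_ne_of_ne (Ne.symm hcb) (Ne.symm d1), swap_apply_left]
        by_cases z2 : z = π b
        · subst z2
          rw [swap_apply_of_ne_of_ne (Ne.symm hcb') (Ne.symm d2), swap_apply_right, c2]
        by_cases z3 : z = c
        · subst z3
          rw [swap_apply_left, swap_apply_of_ne_of_ne d1 d2]
        · have z4 := c4 z z1 z2 z3
          subst z4
          rw [swap_apply_right, swap_apply_of_ne_of_ne hcb hcb', c2]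
      rw [this, Perm.sign_mul, Perm.sign_swap (Ne.symm hb), Perm.sign_swap (Ne.symm (hfix c))] at hs
      exact absurd hs (by decide)
  · push Not at c3
    have hall : ∀ z : B, z = b ∨ z = π b := fun z => by
      by_cases hz : z = b
      · exact Or.inl hz
      · exact Or.inr (c3 z hz)
    have hπs : π = swap b (π b) := by
      ext z
      rcases hall z with rfl | h
      · rw [swap_apply_left]
      · subst h
        rw [swap_apply_right, c2]
    by_cases hxy : x = y
    · rw [hxy, swap_self]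
      exact N.one_mem
    · have : swap x y = π := by
        rw [hπs]
        rcases hall x with hx | hx <;> rcases hall y with hy | hy
        · exact absurd (hx.trans hy.symm) hxy
        · rw [hx, hy]
        · rw [hx, hy, swap_comm]
        · exact absurd (hx.trans hy.symm) hxy
      rw [this]
      exact hπ

end normal

theorem top_of_swaps {B : Type} [Fintype B] [DecidableEq B] (N : Subgroup (Perm B))
    (h : ∀ x y : B, x ≠ y → swap x y ∈ N) (g : Perm B) : g ∈ N := by
  induction g using Perm.swap_induction_on with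
  | one => exact N.one_mem
  | swap_mul f x y hxy ih => exact N.mul_mem (h x y hxy) ih

theorem group : Pool.Agent.H83.FS.S_group := by
  intro A B _ _ _ _ H h1 h2 h3
  have s1 : ∀ α : Perm A, ∃ β : Perm B, (α, β) ∈ H ∧ Perm.sign β = Perm.sign α := by
    intro α
    induction α using Perm.swap_induction_on with
    | one => exact ⟨1, H.one_mem, by rw [Perm.sign_one, Perm.sign_one]⟩
    | swap_mul f x y hxy ih =>
      obtain ⟨β, hβ, hs⟩ := ih
      obtain ⟨b, b', hbb, hb⟩ := h1 x y hxy
      refine ⟨swap b b' * β, ?_, ?_⟩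
      · have := H.mul_mem hb hβ
        rwa [Prod.mk_mul_mk] at this
      · rw [Perm.sign_mul, Perm.sign_mul, Perm.sign_swap hbb, Perm.sign_swap hxy, hs]
  have s2 : ∀ β : Perm B, ∃ α : Perm A, (α, β) ∈ H := by
    intro β
    induction β using Perm.swap_induction_on with
    | one => exact ⟨1, H.one_mem⟩
    | swap_mul f x y hxy ih =>
      obtain ⟨α, hα⟩ := ih
      obtain ⟨a, a', haa, ha⟩ := h2 x y hxy
      refine ⟨swap a a' * α, ?_⟩
      have := H.mul_mem ha hα
      rwa [Prod.mk_mul_mk] at this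
  obtain ⟨N, hN⟩ : ∃ N : Subgroup (Perm B), N = H.comap (MonoidHom.inr (Perm A) (Perm B)) :=
    ⟨_, rfl⟩
  have memN : ∀ β, β ∈ N ↔ ((1 : Perm A), β) ∈ H := by
    intro β
    rw [hN, Subgroup.mem_comap]
    rfl
  have hnorm : N.Normal := by
    constructor
    intro β hβ g
    obtain ⟨α, hα⟩ := s2 g
    rw [memN] at hβ ⊢
    have h4 := H.mul_mem (H.mul_mem hα hβ) (H.inv_mem hα)
    rw [Prod.mk_mul_mk, Prod.inv_mk, Prod.mk_mul_mk, mul_one, mul_inv_cancel] at h4
    exact h4
  obtain ⟨α, β, hαβ, hsign⟩ := h3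
  obtain ⟨β', hβ', hs'⟩ := s1 α
  have hπ : β * β'⁻¹ ∈ N := by
    rw [memN]
    have h4 := H.mul_mem hαβ (H.inv_mem hβ')
    rw [Prod.inv_mk, Prod.mk_mul_mk, mul_inv_cancel] at h4
    exact h4
  have hπs : Perm.sign (β * β'⁻¹) = -1 := by
    rw [Perm.sign_mul, Perm.sign_inv, hs', mul_comm]
    exact hsign
  have hNs : ∀ x y : B, swap x y ∈ N := fun x y => swap_mem hπ hπs x y
  have hB : ∀ β : Perm B, ((1 : Perm A), β) ∈ H := fun β =>
    (memN β).1 (top_of_swaps N (fun x y _ => hNs x y) β)
  obtain ⟨M, hM⟩ : ∃ M : Subgroup (Perm A), M = H.comap (MonoidHom.inl (Perm A) (Perm B)) :=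
    ⟨_, rfl⟩
  have memM : ∀ α, α ∈ M ↔ (α, (1 : Perm B)) ∈ H := by
    intro α
    rw [hM, Subgroup.mem_comap]
    rfl
  have hA : ∀ α : Perm A, (α, (1 : Perm B)) ∈ H := by
    intro α
    refine (memM α).1 (top_of_swaps M (fun x y hxy => ?_) α)
    rw [memM]
    obtain ⟨b, b', hbb, hb⟩ := h1 x y hxy
    have h4 := H.mul_mem hb (H.inv_mem (hB (swap b b')))
    rw [Prod.inv_mk, Prod.mk_mul_mk, inv_one, mul_one, mul_inv_cancel] at h4
    exact h4
  rw [eq_top_iff]
  rintro ⟨α, β⟩ -
  have h4 := H.mul_mem (hA α) (hB β)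
  rwa [Prod.mk_mul_mk, mul_one, one_mul] at h4

end Pool.Agent.H860.FS83
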