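import Pool.Agent.H83.FS.Stm

/-!
# The step IaB (for helper83)
-/

set_option autoImplicit false

namespace Pool.Agent.H249.FS83

open SimpleGraph Pool.Agent.H83.FS

variable {V T : Type} [DecidableEq V] [DecidableEq T] {Y : SimpleGraph V} {col : T → Bool}

/-- walks from `w` stay in the component of `w` -/
theorem comp_walk {V : Type} {Y : SimpleGraph V} {P : V → Prop} {w y : V} (h : Cn Y P w y) :
    Cn Y (fun z => Cn Y P w z) w y := by
  have h' : Relation.ReflTransGen (fun x y => Y.Adj x y ∧ P x ∧ P y) w y := h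
  induction h' with
  | refl => exact Cn.refl w
  | @tail a c h1 h2 ih =>
    exact Cn.trans (ih h1) (Cn.single h2.1 h1 (Cn.trans h1 (Cn.single h2.1 h2.2.1 h2.2.2)))

theorem bne {β γ : Bool} (h : γ = !β) : β ≠ γ := by
  subst h
  cases β <;> decide

omit [DecidableEq T] in
/-- a move exchanges the tokens -/
theorem mv {τ : T ≃ V} {x y : V} {β : Bool} (hxy : Y.Adj x y) (hx : pc col τ x = β)
    (hy : pc col τ y = !β) : ∃ τ' : T ≃ V, Rch Y col τ τ' ∧ τ'.symm x = τ.symm y ∧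
      τ'.symm y = τ.symm x ∧ ∀ z, z ≠ x → z ≠ y → τ'.symm z = τ.symm z := by
  refine ⟨τ.trans (Equiv.swap x y), move hxy ?_, ?_, ?_, ?_⟩
  · rw [hx]
    exact bne hy
  · rw [move_symm_apply, Equiv.swap_apply_left]
  · rw [move_symm_apply, Equiv.swap_apply_right]
  · intro z h1 h2
    rw [move_symm_apply, Equiv.swap_apply_of_ne_of_ne h1 h2]

/-- IaB -/
theorem iaB (_h0 : S_slide) (h1 : S_two) (h2 : S_claw1) (h2' : S_claw2) (h3 : S_link) : S_IaB := by
  intro V T _ _ _ Y col σ b b' w w' F hw z huz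
  obtain ⟨a, a', haa, hca, hca'⟩ := hw
  obtain ⟨⟨hbb, hcc, hnl⟩, huv⟩ := F.st
  by_contra hcon
  push Not at hcon
  obtain ⟨hzv, hzw⟩ := hcon
  have hwu : w ≠ σ b := F.uw.ne'
  have hzu : z ≠ σ b := huz.ne'
  have hvu : σ b' ≠ σ b := huv.ne'
  have hw'v : w' ≠ σ b' := F.vw.ne'
  have hpw : w ≠ σ b ∧ w ≠ σ b' := ⟨hwu, F.wv⟩
  -- the token on `z`
  have hnz : ¬ Av Y (σ b) (σ b') z w := fun h => hzw (F.uniq z huz hzv h)
  have hcz : pc col σ z = col b := by
    by_contra hne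
    refine hnz (F.all z ?_)
    cases h4 : pc col σ z <;> cases h5 : col b <;> simp_all
  set x := σ.symm z with hx
  have hcx : col x = col b := hcz
  have hxb : x ≠ b := by
    intro h
    apply hzu
    rw [← h, hx, Equiv.apply_symm_apply]
  have hxb' : x ≠ b' := by
    intro h
    apply hzv
    rw [← h, hx, Equiv.apply_symm_apply]
  -- the component of `w`
  let P : V → Prop := fun y => Av Y (σ b) (σ b') w y
  have hPu : ¬ P (σ b) := fun h => (Cn.mem h hpw).1 rfl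
  have hPv : ¬ P (σ b') := fun h => (Cn.mem h hpw).2 rfl
  have hPz : ¬ P z := fun h => hnz (Cn.symm h)
  have hPcn : ∀ y, P y → Cn Y P y w := fun y h => Cn.symm (comp_walk h)
  have hPcn2 : ∀ y y', P y → P y' → Cn Y P y y' := fun y y' h h' =>
    Cn.trans (hPcn y h) (Cn.symm (hPcn y' h'))
  have hs : P (σ a) := Cn.symm (F.all (σ a) (by unfold pc; rw [Equiv.symm_apply_apply]; exact hca))
  have hs' : P (σ a') :=
    Cn.symm (F.all (σ a') (by unfold pc; rw [Equiv.symm_apply_apply]; exact hca'))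
  have hss : σ a ≠ σ a' := fun h => haa (σ.injective h)
  have hPw : P w := Cn.refl w
  have hPw' : P w' := F.con
  have hcs : pc col σ (σ a) = !(col b) := by unfold pc; rw [Equiv.symm_apply_apply]; exact hca
  have hcs' : pc col σ (σ a') = !(col b) := by unfold pc; rw [Equiv.symm_apply_apply]; exact hca'
  -- bringing two white tokens to two vertices of the component
  have bring : ∀ y y' : V, P y → P y' → y ≠ y' → ∃ τ : T ≃ V, Rch Y col σ τ ∧
      τ.symm (σ b) = b ∧ τ.symm (σ b') = b' ∧ τ.symm z = x ∧ pc col τ y = !(col b) ∧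
      pc col τ y' = !(col b) := by
    intro y y' hy hy' hyy
    obtain ⟨τ, r, k, c1, c2⟩ := h1 V T Y col P (!(col b)) σ (σ a) (σ a') y y' (hPcn2 _ _ hs hy)
      (hPcn2 _ _ hs' hy') hss hyy hcs hcs'
    refine ⟨τ, r, ?_, ?_, ?_, c1, c2⟩
    · rw [k _ hPu, Equiv.symm_apply_apply]
    · rw [k _ hPv, Equiv.symm_apply_apply]
    · rw [k _ hPz]
  -- a neighbour of `w` in the component
  have hw3 : ∃ w₃, Y.Adj w w₃ ∧ P w₃ := by
    have key : ∀ s, P s → s ≠ w → ∃ w₃, Y.Adj w w₃ ∧ P w₃ := by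
      intro s hPs hsw
      have hP2 : Relation.ReflTransGen (fun x y => Y.Adj x y ∧ (x ≠ σ b ∧ x ≠ σ b') ∧
        (y ≠ σ b ∧ y ≠ σ b')) w s := hPs
      rcases Relation.ReflTransGen.cases_head hP2 with h | ⟨w₃, h4, -⟩
      · exact absurd h.symm hsw
      · exact ⟨w₃, h4.1, Cn.single h4.1 h4.2.1 h4.2.2⟩
    by_cases h : σ a = w
    · exact key (σ a') hs' (fun h' => hss (h.trans h'.symm))
    · exact key (σ a) hs h
  obtain ⟨w₃, hww₃, hPw₃⟩ := hw3
  have hw₃w : w₃ ≠ w := hww₃.ne'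
  have hw₃p := Cn.mem hPw₃ hpw
  have hw₃z : w₃ ≠ z := fun h => hPz (h ▸ hPw₃)
  obtain ⟨L1, L2, L3⟩ := h3 V T Y col
  -- `b'` and `x` are linked
  have l1 : Lk Y col σ b' x := by
    obtain ⟨τ, r, t1, t2, t3, c1, c2⟩ := bring w w₃ hPw hPw₃ hw₃w.symm
    obtain ⟨τ₁, r₁, m1, m2, m3⟩ := mv (β := col b) F.uw (by unfold pc; rw [t1]) c1
    obtain ⟨τ₂, r₂, n1, n2, n3⟩ := mv (τ := τ₁) (col := col) (β := col b) hww₃
      (by unfold pc; rw [m2, t1]) (by unfold pc; rw [m3 w₃ hw₃p.1 hw₃w]; exact c2)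
    have e1 : τ₂.symm (σ b) = τ.symm w := by rw [n3 _ hwu.symm hw₃p.1.symm, m1]
    have e2 : τ₂.symm w = τ.symm w₃ := by rw [n1, m3 w₃ hw₃p.1 hw₃w]
    have e3 : τ₂.symm (σ b') = b' := by rw [n3 _ F.wv.symm hw₃p.2.symm, m3 _ hvu F.wv.symm, t2]
    have e4 : τ₂.symm z = x := by rw [n3 _ hzw hw₃z.symm, m3 _ hzu hzw, t3]
    have l := h2' V T Y col τ₂ (σ b) w (σ b') z F.uw huv huz F.wv hzw.symm hzv.symm
      (by unfold pc; rw [e3, e4, hcx, hcc])
      (by unfold pc; rw [e1, e3, ← hcc]; exact c1)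
      (by unfold pc; rw [e2, e3, ← hcc]; exact c2)
    rw [e3, e4] at l
    exact L1 τ₂ σ b' x ((r.trans (r₁.trans r₂)).symm) (hcc.symm.trans hcx.symm) l
  -- `b` and `x` are linked
  have l2 : Lk Y col σ b x := by
    obtain ⟨τ, r, t1, t2, t3, c1, c2⟩ := bring w w' hPw hPw' F.ne
    obtain ⟨τ₁, r₁, m1, m2, m3⟩ := mv (β := col b) F.vw (by unfold pc; rw [t2, hcc]) c2
    have hzw' : z ≠ w' := fun h => hPz (h ▸ hPw')
    have e1 : τ₁.symm (σ b) = b := by rw [m3 _ hvu.symm F.wu.symm, t1]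
    have e2 : τ₁.symm (σ b') = τ.symm w' := m1
    have e3 : τ₁.symm z = x := by rw [m3 _ hzv hzw', t3]
    have e4 : τ₁.symm w = τ.symm w := m3 _ F.wv F.ne
    have l := h2 V T Y col τ₁ (σ b) z (σ b') w huz huv F.uw hzv hzw F.wv.symm
      (by unfold pc; rw [e1, e3, hcx])
      (by unfold pc; rw [e2, e1]; exact c2)
      (by unfold pc; rw [e4, e1]; exact c1)
    rw [e1, e3] at l
    exact L1 τ₁ σ b x ((r.trans r₁).symm) hcx.symm l
  exact hnl (L3 σ b x b' hcx.symm (hcx.trans hcc) hxb.symm hxb' hbb l2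
    (L2 σ b' x (hcc.symm.trans hcx.symm) l1))

end Pool.Agent.H249.FS83
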