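import Pool.Agent.H83.FS.Stm

/-!
# FS UNL
-/

set_option autoImplicit false

namespace Pool.Agent.H935.FS83

open SimpleGraph Pool.Agent.H83.FS

theorem card_left {A B V : Type} [Fintype A] [Fintype V] [DecidableEq V]
    (ρ : (A ⊕ B) ≃ V) :
    (Finset.univ.filter fun x => pc Sum.isLeft ρ x = true).card = Fintype.card A := by
  have h : (Finset.univ.filter fun x => pc Sum.isLeft ρ x = true) =
      Finset.univ.image (fun a : A => ρ (Sum.inl a)) := by
    ext x
    simp only [Finset.mem_filter, Finset.mem_univ, true_and, Finset.mem_image]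
    constructor
    · intro hx
      obtain ⟨a, ha⟩ := Sum.isLeft_iff.1 hx
      exact ⟨a, by rw [← ha, Equiv.apply_symm_apply]⟩
    · rintro ⟨a, rfl⟩
      simp [pc]
  rw [h, Finset.card_image_of_injective, Finset.card_univ]
  exact ρ.injective.comp Sum.inl_injective

theorem cn_all {V : Type} {Y : SimpleGraph V} (hY : Y.Connected) (x y : V) :
    Cn Y (fun _ => True) x y := by
  obtain ⟨w⟩ := hY.preconnected x y
  induction w with
  | nil => exact Cn.refl _
  | cons hadj _ ih => exact (Cn.single hadj trivial trivial).trans ih

/-- two placements with the same colours -/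
theorem same {A B V : Type} [Finite A] [Finite B] (σ τ : (A ⊕ B) ≃ V)
    (h : ∀ x, pc Sum.isLeft σ x = pc Sum.isLeft τ x) :
    ∃ (α : Equiv.Perm A) (β : Equiv.Perm B), (Equiv.sumCongr α β).trans τ = σ := by
  have h1 : Set.MapsTo (σ.trans τ.symm) (Set.range Sum.inl) (Set.range Sum.inl) := by
    rintro _ ⟨a, rfl⟩
    have h2 := h (σ (Sum.inl a))
    unfold pc at h2
    rw [Equiv.symm_apply_apply] at h2
    obtain ⟨a', ha'⟩ := Sum.isLeft_iff.1 h2.symm
    exact ⟨a', ha'.symm⟩
  obtain ⟨⟨α, β⟩, hαβ⟩ := Equiv.Perm.mem_sumCongrHom_range_of_perm_mapsTo_inl h1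
  refine ⟨α, β, ?_⟩
  have h3 : Equiv.sumCongr α β = σ.trans τ.symm := hαβ
  rw [h3]
  ext x
  simp

theorem unl (h : S_slide) : S_unl := by
  intro A B V _ _ _ _ _ _ Y hY σ τ
  have main : ∀ n : ℕ, ∀ σ : (A ⊕ B) ≃ V, (Finset.univ.filter fun x =>
      pc Sum.isLeft σ x = true ∧ pc Sum.isLeft τ x = false).card = n →
      ∃ (α : Equiv.Perm A) (β : Equiv.Perm B),
        Rch Y Sum.isLeft σ ((Equiv.sumCongr α β).trans τ) := by
    intro n
    induction n using Nat.strong_induction_on with
    | _ n ih =>
      intro σ hn
      have hc : (Finset.univ.filter fun x => pc Sum.isLeft σ x = true).card =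
          (Finset.univ.filter fun x => pc Sum.isLeft τ x = true).card := by
        rw [card_left, card_left]
      by_cases hex : ∃ s, pc Sum.isLeft σ s = true ∧ pc Sum.isLeft τ s = false
      · obtain ⟨s, hs1, hs2⟩ := hex
        have hex' : ∃ s', pc Sum.isLeft τ s' = true ∧ pc Sum.isLeft σ s' = false := by
          by_contra hcon
          push Not at hcon
          have hsub : (Finset.univ.filter fun x => pc Sum.isLeft τ x = true) ⊆
              (Finset.univ.filter fun x => pc Sum.isLeft σ x = true) := by
            intro x hx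
            rw [Finset.mem_filter] at hx ⊢
            exact ⟨hx.1, by simpa using hcon x hx.2⟩
          have heq := Finset.eq_of_subset_of_card_le hsub hc.le
          have hs : s ∈ (Finset.univ.filter fun x => pc Sum.isLeft τ x = true) := by
            rw [heq]
            exact Finset.mem_filter.2 ⟨Finset.mem_univ _, hs1⟩
          rw [Finset.mem_filter, hs2] at hs
          exact Bool.false_ne_true hs.2
        obtain ⟨s', hs1', hs2'⟩ := hex'
        obtain ⟨ρ, hρ1, -, hρ2, hρ3, hρ4⟩ := h V (A ⊕ B) Y Sum.isLeft (fun _ => True) s s'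
          (cn_all hY s s') σ (by rw [hs1, hs2']; decide)
        have hlt : (Finset.univ.filter fun x =>
            pc Sum.isLeft ρ x = true ∧ pc Sum.isLeft τ x = false).card < n := by
          rw [← hn]
          refine Finset.card_lt_card ⟨?_, ?_⟩
          · intro x hx
            rw [Finset.mem_filter] at hx ⊢
            have hxs : x ≠ s := by
              rintro rfl
              rw [hρ2, hs2'] at hx
              exact Bool.false_ne_true hx.2.1
            have hxs' : x ≠ s' := by
              rintro rfl
              rw [hs1'] at hx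
              exact Bool.false_ne_true hx.2.2.symm
            rw [hρ4 x hxs hxs'] at hx
            exact hx
          · intro hsub
            have hs := hsub (Finset.mem_filter.2 ⟨Finset.mem_univ s, hs1, hs2⟩)
            rw [Finset.mem_filter, hρ2, hs2'] at hs
            exact Bool.false_ne_true hs.2.1
        obtain ⟨α, β, hαβ⟩ := ih _ hlt ρ rfl
        exact ⟨α, β, hρ1.trans hαβ⟩
      · push Not at hex
        have hsub : (Finset.univ.filter fun x => pc Sum.isLeft σ x = true) ⊆
            (Finset.univ.filter fun x => pc Sum.isLeft τ x = true) := by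
          intro x hx
          rw [Finset.mem_filter] at hx ⊢
          exact ⟨hx.1, by simpa using hex x hx.2⟩
        have heq := Finset.eq_of_subset_of_card_le hsub hc.ge
        obtain ⟨α, β, hαβ⟩ := same σ τ (fun x => by
          have h1 := Finset.ext_iff.1 heq x
          simp only [Finset.mem_filter, Finset.mem_univ, true_and] at h1
          exact Bool.eq_iff_iff.2 h1)
        exact ⟨α, β, by rw [hαβ]; exact Rch.refl _ _ _⟩
  exact main _ σ rfl

end Pool.Agent.H935.FS83
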