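import Pool.Agent.H83.FS.Main
import Pool.Agent.H83.FS.PAdj
import Pool.Agent.H83.FS.PBring
import Pool.Agent.H83.FS.PClaw
import Pool.Agent.H83.FS.PCyc
import Pool.Agent.H83.FS.PDrive
import Pool.Agent.H83.FS.PGraph
import Pool.Agent.H83.FS.PGroup
import Pool.Agent.H83.FS.PIaA
import Pool.Agent.H83.FS.PIaB
import Pool.Agent.H83.FS.PIaC
import Pool.Agent.H83.FS.PLink
import Pool.Agent.H83.FS.PMax
import Pool.Agent.H83.FS.PNoClaw
import Pool.Agent.H83.FS.PNotwoFront
import Pool.Agent.H83.FS.POdd
import Pool.Agent.H83.FS.PSlideTwo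
import Pool.Agent.H83.FS.PUnl

/-!
# All steps together
-/

set_option autoImplicit false

namespace Pool.Agent.H83.FS

open SimpleGraph

theorem slide' : S_slide := Pool.Agent.H747.FS83.slide
theorem two' : S_two := Pool.Agent.H747.FS83.two slide'
theorem bring' : S_bring := Pool.Agent.H707.FS83.bring slide'
theorem link' : S_link := Pool.Agent.H658.FS83.link
theorem claw2' : S_claw2 := claw2
theorem claw1' : S_claw1 := claw1 claw2' link'
theorem notwo' : S_notwo := Pool.Agent.H52.FS83.notwo two' claw1' link'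

theorem steps : Steps where
  bring := bring'
  link := link'
  adj := Pool.Agent.H230.FS83.adj link'
  iaA := Pool.Agent.H286.FS83.iaA slide' two' claw1' link' notwo'
  iaB := Pool.Agent.H249.FS83.iaB slide' two' claw1' claw2' link'
  iaC := Pool.Agent.H357.FS83.iaC slide' link'
  cyc := Pool.Agent.H955.FS83.cyc
  max := Pool.Agent.H803.FS83.max slide' link'
  front := Pool.Agent.H52.FS83.front notwo'
  noclaw := Pool.Agent.H282.FS83.noclaw bring' Pool.Agent.H597.FS83.drive claw1' link'
  graph := Pool.Agent.H809.FS83.graph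
  group := Pool.Agent.H860.FS83.group
  unl := Pool.Agent.H935.FS83.unl slide'
  odd := Pool.Agent.H278.FS83.odd (Pool.Agent.H935.FS83.unl slide')

end Pool.Agent.H83.FS
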