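import Pool.Agent.H83.FS.Stm

/-!
# Assembly
-/

set_option autoImplicit false

namespace Pool.Agent.H83.FS

open SimpleGraph

/-- All steps. -/
structure Steps : Prop where
  bring : S_bring
  link : S_link
  adj : S_adj
  iaA : S_IaA
  iaB : S_IaB
  iaC : S_IaC
  cyc : S_cyc
  max : S_max
  front : S_front
  noclaw : S_noclaw
  graph : S_graph
  group : S_group
  unl : S_unl
  odd : S_odd

section

variable {V T : Type} [Fintype V] [DecidableEq V] [DecidableEq T] {Y : SimpleGraph V}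
  {col : T → Bool}

theorem Ia.symm (h : Steps) {σ : T ≃ V} {b b' : T} (hI : Ia Y col σ b b') :
    Ia Y col σ b' b := by
  obtain ⟨⟨⟨h1, h2, h3⟩, h4⟩, s, w, w', a1, a2, a3, a4, a5, a6, a7⟩ := hI
  have hav : ∀ x y, Av Y (σ b) (σ b') x y → Av Y (σ b') (σ b) x y := by
    intro x y hxy
    exact Cn.mono (fun z hz => ⟨hz.2, hz.1⟩) hxy
  refine ⟨⟨⟨h1.symm, h2.symm, fun hL => h3 ?_⟩, h4.symm⟩, s, w', w, ?_, a4, a5, a2, a3,
    hav _ _ a7, hav _ _ a6⟩
  · exact (h.link V T Y col).2.1 σ b' b h2.symm hL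
  · rw [← h2]; exact a1

/-- If there is a state of type `Ia` then all degrees are two. -/
theorem ia_global (h : Steps) (hY : Y.Connected) {β : Bool}
    (h2 : ∃ a a' : T, a ≠ a' ∧ col a = !β ∧ col a' = !β) {σ : T ≃ V} {b b' : T}
    (hb : col b = β) (hI : Ia Y col σ b b') : ∀ x, (Y.neighborSet x).ncard = 2 := by
  classical
  -- the set of front vertices of such states
  have hstep : ∀ (τ : T ≃ V) (c c' : T), col c = β → Ia Y col τ c c' →
      ∃ w, w ≠ τ c' ∧ Y.Adj (τ c) w ∧ (∀ y, Y.Adj (τ c) y → y = τ c' ∨ y = w) ∧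
        ∃ (υ : T ≃ V) (d d' : T), col d = β ∧ Ia Y col υ d d' ∧ υ d = w := by
    intro τ c c' hc hI
    have h2' : ∃ a a' : T, a ≠ a' ∧ col a = !(col c) ∧ col a' = !(col c) := by
      rw [hc]; exact h2
    obtain ⟨w, w', hF⟩ := h.iaA V T Y col τ c c' hY hI h2'
    have hB := h.iaB V T Y col τ c c' w w' hF h2'
    obtain ⟨a, a', -, ha, -⟩ := h2'
    obtain ⟨υ, hυ, e1, e2⟩ := h.iaC V T Y col τ c c' w w' hF ⟨a, ha⟩
    exact ⟨w, hF.wv, hF.uw, hB, υ, c, c', hc, hυ, e1⟩
  have hcl : ∀ x y, Y.Adj x y →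
      (∃ (τ : T ≃ V) (c c' : T), col c = β ∧ Ia Y col τ c c' ∧ τ c = x) →
      (∃ (τ : T ≃ V) (c c' : T), col c = β ∧ Ia Y col τ c c' ∧ τ c = y) := by
    rintro x y hxy ⟨τ, c, c', hc, hI, rfl⟩
    obtain ⟨w, hw1, hw2, hw3, υ, d, d', hd, hυ, e⟩ := hstep τ c c' hc hI
    rcases hw3 y hxy with rfl | rfl
    · exact ⟨τ, c', c, by rw [← hI.1.1.2.1]; exact hc, hI.symm h, rfl⟩
    · exact ⟨υ, d, d', hd, hυ, e⟩
  have hall : ∀ x, ∃ (τ : T ≃ V) (c c' : T), col c = β ∧ Ia Y col τ c c' ∧ τ c = x := by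
    intro x
    obtain ⟨p⟩ := hY.preconnected (σ b) x
    have h0 : ∃ (τ : T ≃ V) (c c' : T), col c = β ∧ Ia Y col τ c c' ∧ τ c = σ b :=
      ⟨σ, b, b', hb, hI, rfl⟩
    generalize σ b = z at p h0
    induction p with
    | nil => exact h0
    | cons hadj _ ih => exact ih (hcl _ _ hadj h0)
  intro x
  obtain ⟨τ, c, c', hc, hI, rfl⟩ := hall x
  obtain ⟨w, hw1, hw2, hw3, -⟩ := hstep τ c c' hc hI
  have : Y.neighborSet (τ c) = {τ c', w} := by
    ext y
    simp only [mem_neighborSet, Set.mem_insert_iff, Set.mem_singleton_iff]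
    constructor
    · exact hw3 y
    · rintro (rfl | rfl)
      · exact hI.1.2
      · exact hw2
  rw [this]
  exact Set.ncard_pair hw1.symm

variable [Fintype T]

/-- All tokens of one colour are linked. -/
theorem core (h : Steps) (hY : Y.Connected) (hdeg : ¬ ∀ x, (Y.neighborSet x).ncard = 2)
    {β : Bool} {k : ℕ} (hk : 2 ≤ k) (hcard : (Finset.univ.filter (fun t => col t = !β)).card = k)
    (hbr : ¬ HasBridge Y k) (σ : T ≃ V) {b b' : T} (hb : col b = β) (hb' : col b' = β)
    (hne : b ≠ b') : Lk Y col σ b b' := by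
  classical
  by_contra hL
  obtain ⟨τ, c, c', -, hF, hc⟩ := h.adj V T Y col hY σ b b' ⟨hne, by rw [hb, hb'], hL⟩
  have h2 : ∃ a a' : T, a ≠ a' ∧ col a = !β ∧ col a' = !β := by
    have : 1 < (Finset.univ.filter (fun t => col t = !β)).card := by omega
    obtain ⟨a, ha, a', ha', hne⟩ := Finset.one_lt_card.1 this
    exact ⟨a, a', hne, (Finset.mem_filter.1 ha).2, (Finset.mem_filter.1 ha').2⟩
  have hno : ∀ (τ : T ≃ V) (c c' : T), col c = β → ¬ Ia Y col τ c c' :=
    fun τ c c' hc hI => hdeg (ia_global h hY h2 hc hI)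
  obtain ⟨τ, c, c', hF, hc, hatt⟩ := h.max V T Y col β hY hno τ c c' (hc.trans hb) hF
  subst hc
  obtain ⟨w, K, a1, a2, a3, a4, a5, a6, a7⟩ := h.front V T Y col τ c c' hF (hno τ c c' rfl) h2 hatt
  have hAv : ∀ x ∈ K, ∀ z ∈ K, Av Y (τ c) (τ c') x z := by
    intro x hx z hz
    have h1 : Cn Y (fun z => z ∈ K) x z := (a6 x hx).symm.trans (a6 z hz)
    exact Cn.mono (fun y hy => ⟨fun h => a3 (h ▸ hy), fun h => a4 (h ▸ hy)⟩) h1
  have hKk : (K.filter (fun x => pc col τ x = !(col c))).card = k := by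
    rw [← hcard]
    refine Finset.card_bij (fun x _ => τ.symm x) ?_ ?_ ?_
    · intro x hx
      exact Finset.mem_filter.2 ⟨Finset.mem_univ _, (Finset.mem_filter.1 hx).2⟩
    · intro x _ y _ hxy
      exact τ.symm.injective hxy
    · intro t ht
      have ht' := (Finset.mem_filter.1 ht).2
      have h3 : pc col τ (τ t) = !(col c) := by simpa [pc] using ht'
      exact ⟨τ t, Finset.mem_filter.2 ⟨a7 _ h3, h3⟩, by simp⟩
  refine hbr (h.graph V Y (τ c) (τ c') w K k hk ?_ a3 a4 hF.2 a1 a2 a5 a6 ?_)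
  · rw [← hKk]; exact Finset.card_le_card (Finset.filter_subset _ _)
  · intro p j hj1 hj2 p0 p1 p2 hinj hadj hmem y y' hy hy' hyy hyp hyp' q1 q2
    exact h.noclaw V T Y col τ c c' K p j y y' hF hAv a3 a4 hinj hadj p0.symm p1.symm hmem hy hy'
      hyy hyp hyp' q1 q2 (by rw [hKk]; exact hj2)

end

/-- A non-trivial `m`-bridge contains a non-trivial `k`-bridge, `2 ≤ k ≤ m`. -/
theorem HasBridge.mono {V : Type} {Y : SimpleGraph V} {k m : ℕ} (hk : 2 ≤ k) (hkm : k ≤ m)
    (h : HasBridge Y m) : HasBridge Y k := by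
  obtain ⟨v, h1, h2, h3, h4, h5⟩ := h
  refine ⟨v, fun i j hi hj => h1 i j (by omega) (by omega), fun i hi => h2 i (by omega),
    fun i hi hi' => h3 i hi (by omega), h4, ?_⟩
  rcases Nat.lt_or_ge k m with h | h
  · rw [h3 (k - 1) (by omega) (by omega)]
  · have : k = m := by omega
    rw [this]; exact h5

theorem tg_isLeft {A B : Type} : tg (Sum.isLeft : A ⊕ B → Bool) = completeBipartiteGraph A B := by
  ext a b
  rcases a with a | a <;> rcases b with b | b <;> simp [tg]

/-- The theorem from the steps. -/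
theorem main_of_steps (h : Steps) (A B V : Type) [Fintype A] [DecidableEq A] [Fintype B]
    [DecidableEq B] [Fintype V] [DecidableEq V] (Y : SimpleGraph V)
    (hA : 2 ≤ Fintype.card A) (hAB : Fintype.card A ≤ Fintype.card B)
    (hV : Fintype.card V = Fintype.card A + Fintype.card B) (hY : Y.Connected)
    (hcol : ¬ Y.Colorable 2) (hbr : ¬ HasBridge Y (Fintype.card A))
    (hcyc : IsEmpty (Y ≃g cycleGraph (Fintype.card V))) :
    (FSGraph (completeBipartiteGraph A B) Y).Connected := by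
  classical
  have hdeg : ¬ ∀ x, (Y.neighborSet x).ncard = 2 := fun hd =>
    hcyc.elim' (h.cyc V Y hY hd).some
  have hAne : Nonempty A := Fintype.card_pos_iff.1 (by omega)
  have hBne : Nonempty B := Fintype.card_pos_iff.1 (by omega)
  have hequiv : Nonempty ((A ⊕ B) ≃ V) := by
    rw [← Fintype.card_eq, Fintype.card_sum]
    exact hV.symm
  obtain ⟨σ, α₀, β₀, hr₀, hs₀⟩ := h.odd A B V Y hY hcol hAne hBne hequiv
  -- the colour counts
  have hcA : (Finset.univ.filter (fun t : A ⊕ B => Sum.isLeft t = !false)).card =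
      Fintype.card A := by
    rw [← Fintype.card_subtype]
    refine Fintype.card_congr ⟨fun t => t.1.getLeft (by simpa using t.2),
      fun a => ⟨Sum.inl a, rfl⟩, ?_, ?_⟩
    · rintro ⟨a | b, hh⟩ <;> simp_all
    · intro a; simp
  have hcB : (Finset.univ.filter (fun t : A ⊕ B => Sum.isLeft t = !true)).card =
      Fintype.card B := by
    rw [← Fintype.card_subtype]
    refine Fintype.card_congr ⟨fun t => t.1.getRight (by simpa using t.2),
      fun a => ⟨Sum.inr a, rfl⟩, ?_, ?_⟩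
    · rintro ⟨a | b, hh⟩ <;> simp_all
    · intro a; simp
  have hbr' : ¬ HasBridge Y (Fintype.card B) := fun hh => hbr (hh.mono hA hAB)
  -- the group
  have hcolρ : ∀ (α : Equiv.Perm A) (β : Equiv.Perm B) (t : A ⊕ B),
      Sum.isLeft (Equiv.sumCongr α β t) = Sum.isLeft t := by
    intro α β t
    rcases t with t | t <;> simp
  let H : Subgroup (Equiv.Perm A × Equiv.Perm B) :=
    { carrier := {p | Rch Y Sum.isLeft σ ((Equiv.sumCongr p.1 p.2).trans σ)}
      mul_mem' := by
        rintro ⟨α, β⟩ ⟨α', β'⟩ h1 h2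
        change Rch Y Sum.isLeft σ ((Equiv.sumCongr (α * α') (β * β')).trans σ)
        have h3 := Rch.relabel h1 (Equiv.sumCongr α' β') (hcolρ α' β')
        have e : (Equiv.sumCongr (α * α') (β * β')).trans σ =
            (Equiv.sumCongr α' β').trans ((Equiv.sumCongr α β).trans σ) := by
          ext t
          rcases t with t | t <;> simp
        rw [e]
        exact Rch.trans h2 h3
      one_mem' := by
        change Rch Y Sum.isLeft σ ((Equiv.sumCongr 1 1).trans σ)
        have e : (Equiv.sumCongr (1 : Equiv.Perm A) (1 : Equiv.Perm B)).trans σ = σ := by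
          ext t
          rcases t with t | t <;> simp
        rw [e]
        exact Rch.refl _ _ _
      inv_mem' := by
        rintro ⟨α, β⟩ h1
        change Rch Y Sum.isLeft σ ((Equiv.sumCongr α⁻¹ β⁻¹).trans σ)
        have h3 := Rch.relabel h1 (Equiv.sumCongr α⁻¹ β⁻¹) (hcolρ α⁻¹ β⁻¹)
        have e : (Equiv.sumCongr α⁻¹ β⁻¹).trans ((Equiv.sumCongr α β).trans σ) = σ := by
          ext t
          rcases t with t | t <;> simp
        dsimp only at h3
        rw [e] at h3
        exact h3.symm }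
  have hswapL : ∀ a a' : A, Equiv.sumCongr (Equiv.swap a a') (1 : Equiv.Perm B) =
      Equiv.swap (Sum.inl a : A ⊕ B) (Sum.inl a') := by
    intro a a'
    ext t
    rcases t with t | t
    · simp only [Equiv.sumCongr_apply, Sum.map_inl]
      by_cases h1 : t = a
      · subst h1; simp
      · by_cases h2 : t = a'
        · subst h2; simp
        · rw [Equiv.swap_apply_of_ne_of_ne h1 h2, Equiv.swap_apply_of_ne_of_ne] <;> simp [h1, h2]
    · simp only [Equiv.sumCongr_apply, Sum.map_inr]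
      rw [Equiv.swap_apply_of_ne_of_ne] <;> simp
  have hswapR : ∀ b b' : B, Equiv.sumCongr (1 : Equiv.Perm A) (Equiv.swap b b') =
      Equiv.swap (Sum.inr b : A ⊕ B) (Sum.inr b') := by
    intro a a'
    ext t
    rcases t with t | t
    · simp only [Equiv.sumCongr_apply, Sum.map_inl]
      rw [Equiv.swap_apply_of_ne_of_ne] <;> simp
    · simp only [Equiv.sumCongr_apply, Sum.map_inr]
      by_cases h1 : t = a
      · subst h1; simp
      · by_cases h2 : t = a'
        · subst h2; simp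
        · rw [Equiv.swap_apply_of_ne_of_ne h1 h2, Equiv.swap_apply_of_ne_of_ne] <;> simp [h1, h2]
  have hswap : ∀ (a a' : A) (b b' : B), Equiv.sumCongr (Equiv.swap a a') (Equiv.swap b b') =
      Equiv.swap (Sum.inl a : A ⊕ B) (Sum.inl a') * Equiv.swap (Sum.inr b) (Sum.inr b') := by
    intro a a' b b'
    have e : Equiv.sumCongr (Equiv.swap a a') (Equiv.swap b b') =
        (Equiv.sumCongr (Equiv.swap a a') (1 : Equiv.Perm B) *
          Equiv.sumCongr (1 : Equiv.Perm A) (Equiv.swap b b') : Equiv.Perm (A ⊕ B)) := by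
      refine Equiv.ext fun t => ?_
      rcases t with t | t
      · change Sum.inl _ = Sum.inl _
        rfl
      · change Sum.inr _ = Sum.inr _
        rfl
    rw [e, hswapL, hswapR]
  have hg1 : ∀ b b' : B, b ≠ b' → ∃ a a' : A, a ≠ a' ∧
      (Equiv.swap a a', Equiv.swap b b') ∈ H := by
    intro b b' hbb
    obtain ⟨s, s', hss, hs1, hs2, hr⟩ := core (col := (Sum.isLeft : A ⊕ B → Bool)) (β := false) h hY
      hdeg hA hcA hbr σ (b := Sum.inr b) (b' := Sum.inr b') rfl rfl (by simpa using hbb)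
    obtain ⟨a, rfl⟩ : ∃ a, s = Sum.inl a := by
      rcases s with s | s
      · exact ⟨s, rfl⟩
      · simp at hs1
    obtain ⟨a', rfl⟩ : ∃ a', s' = Sum.inl a' := by
      rcases s' with s' | s'
      · exact ⟨s', rfl⟩
      · simp at hs2
    refine ⟨a, a', fun hh => hss (by rw [hh]), ?_⟩
    change Rch Y Sum.isLeft σ ((Equiv.sumCongr (Equiv.swap a a') (Equiv.swap b b')).trans σ)
    rw [hswap]
    exact hr
  have hg2 : ∀ a a' : A, a ≠ a' → ∃ b b' : B, b ≠ b' ∧
      (Equiv.swap a a', Equiv.swap b b') ∈ H := by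
    intro a a' haa
    obtain ⟨s, s', hss, hs1, hs2, hr⟩ := core (col := (Sum.isLeft : A ⊕ B → Bool)) (β := true) h hY
      hdeg (hA.trans hAB) hcB hbr' σ (b := Sum.inl a) (b' := Sum.inl a') rfl rfl
      (by simpa using haa)
    obtain ⟨b, rfl⟩ : ∃ b, s = Sum.inr b := by
      rcases s with s | s
      · simp at hs1
      · exact ⟨s, rfl⟩
    obtain ⟨b', rfl⟩ : ∃ b', s' = Sum.inr b' := by
      rcases s' with s' | s'
      · simp at hs2
      · exact ⟨s', rfl⟩
    refine ⟨b, b', fun hh => hss (by rw [hh]), ?_⟩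
    change Rch Y Sum.isLeft σ ((Equiv.sumCongr (Equiv.swap a a') (Equiv.swap b b')).trans σ)
    rw [hswap]
    have e' : (Equiv.sumCongr (Equiv.swap a a') (1 : Equiv.Perm B) *
          Equiv.sumCongr (1 : Equiv.Perm A) (Equiv.swap b b') : Equiv.Perm (A ⊕ B)) =
        Equiv.sumCongr (1 : Equiv.Perm A) (Equiv.swap b b') *
          Equiv.sumCongr (Equiv.swap a a') (1 : Equiv.Perm B) := by
      refine Equiv.ext fun t => ?_
      rcases t with t | t
      · change Sum.inl _ = Sum.inl _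
        rfl
      · change Sum.inr _ = Sum.inr _
        rfl
    rw [hswapL, hswapR] at e'
    rw [e']
    exact hr
  have hH : H = ⊤ := h.group A B H hg2 hg1 ⟨α₀, β₀, hr₀, hs₀⟩
  have hreach : ∀ τ : (A ⊕ B) ≃ V, Rch Y Sum.isLeft σ τ := by
    intro τ
    obtain ⟨α, β, hr⟩ := h.unl A B V Y hY σ τ
    -- σ reaches ρ.trans τ; relabel by the inverse of ρ
    have h1 : (α⁻¹, β⁻¹) ∈ H := by rw [hH]; exact Subgroup.mem_top _
    change Rch Y Sum.isLeft σ ((Equiv.sumCongr α⁻¹ β⁻¹).trans σ) at h1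
    have h2 := Rch.relabel hr (Equiv.sumCongr α⁻¹ β⁻¹) (hcolρ α⁻¹ β⁻¹)
    have e : (Equiv.sumCongr α⁻¹ β⁻¹).trans ((Equiv.sumCongr α β).trans τ) = τ := by
      ext t
      rcases t with t | t <;> simp
    rw [e] at h2
    exact h1.trans h2
  rw [← tg_isLeft]
  have : Nonempty ((A ⊕ B) ≃ V) := hequiv
  refine ⟨fun τ υ => ?_⟩
  exact (hreach τ).symm.trans (hreach υ)

end Pool.Agent.H83.FS
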