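import Pool.Agent.H83.FS.Basic

/-!
# Statements of the steps

Notation in the proofs below: `u = σ b`, `v = σ b'`. The tokens with the colour of `b`, `b'` are
called black, the other ones white. `b ~ b'` means `b = b'` or `Lk Y col σ b b'`; `D` is the
negation. A state with `FSt Y col σ b b'` has two black unlinked tokens on the adjacent vertices
`u`, `v`.
-/

set_option autoImplicit false

namespace Pool.Agent.H83.FS

open SimpleGraph

/-- SLIDE. Proof by head induction on the walk from `s` to `s'`, for all `σ`. Let the first step be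
`s → p`. If `p = s'` it is one move (`move`, `pc_move`). Otherwise, if `p` has another colour than
`s`: move on the edge `s p` first, then induction hypothesis for `p → s'`. If `p` has the colour of
`s`: induction hypothesis for `p → s'` first, then move on the edge `s p`. -/
def S_slide : Prop :=
  ∀ (V T : Type) [DecidableEq V] [DecidableEq T] (Y : SimpleGraph V) (col : T → Bool)
    (P : V → Prop) (s s' : V), Cn Y P s s' → ∀ σ : T ≃ V, pc col σ s ≠ pc col σ s' →
    ∃ τ : T ≃ V, Rch Y col σ τ ∧ (∀ x, ¬ P x → τ.symm x = σ.symm x) ∧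
      pc col τ s = pc col σ s' ∧ pc col τ s' = pc col σ s ∧
      ∀ x, x ≠ s → x ≠ s' → pc col τ x = pc col σ x

/-- BRING. Induction on the number of `z ∈ Z` whose colour is not `c`: if there is one, then by the
inequality there is `s ∈ K \ Z` of colour `c` (the number of vertices of colour `c` in `K` is at
least `|Z|`, which is more than the number of those in `Z`); use `S_slide` from `s` to `z`. The
number of vertices of colour `c` in `K` does not change. -/
def S_bring : Prop :=
  ∀ (V T : Type) [Fintype V] [DecidableEq V] [DecidableEq T] (Y : SimpleGraph V) (col : T → Bool)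
    (P : V → Prop) (K Z : Finset V) (c : Bool) (σ : T ≃ V),
    (∀ x ∈ K, ∀ y ∈ K, Cn Y P x y) → Z ⊆ K →
    Z.card ≤ (K.filter (fun x => pc col σ x = c)).card →
    ∃ τ : T ≃ V, Rch Y col σ τ ∧ (∀ x, ¬ P x → τ.symm x = σ.symm x) ∧
      (∀ z ∈ Z, pc col τ z = c) ∧ ∀ x, x ∉ K → pc col τ x = pc col σ x

/-- TWO. Cases: `w` and `w'` both have colour `c`: nothing to do. Only `w` has colour `c`: if
`s' ≠ w` slide `s' → w'`, otherwise `s' = w`, `s ≠ w` and slide `s → w'` (walk `s → w = s' → w'`).
Only `w'` has colour `c`: symmetric. None has colour `c`: slide `s → w`, then slide `s' → w'` (`s'`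
still has colour `c`, and `w'` has still the other one). Uses `S_slide`. -/
def S_two : Prop :=
  ∀ (V T : Type) [DecidableEq V] [DecidableEq T] (Y : SimpleGraph V) (col : T → Bool)
    (P : V → Prop) (c : Bool) (σ : T ≃ V) (s s' w w' : V), Cn Y P s w → Cn Y P s' w' → s ≠ s' →
    w ≠ w' → pc col σ s = c → pc col σ s' = c →
    ∃ τ : T ≃ V, Rch Y col σ τ ∧ (∀ x, ¬ P x → τ.symm x = σ.symm x) ∧
      pc col τ w = c ∧ pc col τ w' = c

/-- CLAW, second type: the centre `x` and the leaf `y` are white, the leaves `z`, `w` are black.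
With `a, a', b, b'` the tokens on `x, y, z, w` make the six moves exchanging the tokens
`(a b), (a' b), (a' b'), (a b'), (a b), (a' b')`-type pairs; on the vertices: exchange the centre
`x` with the leaves `z, y, w, z, y, w` (in this order). The result is the state in which `a, a'` and
`b, b'` are exchanged. -/
def S_claw2 : Prop :=
  ∀ (V T : Type) [DecidableEq V] [DecidableEq T] (Y : SimpleGraph V) (col : T → Bool) (σ : T ≃ V)
    (x y z w : V), Y.Adj x y → Y.Adj x z → Y.Adj x w → y ≠ z → y ≠ w → z ≠ w →
    pc col σ z = pc col σ w → pc col σ x = !(pc col σ z) → pc col σ y = !(pc col σ z) →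
    Lk Y col σ (σ.symm z) (σ.symm w)

/-- CLAW, first type: the centre `x` and the leaf `y` are black, the leaves `z`, `w` are white.
One move (exchange `x` and `w`) leads to the second type; use `S_claw2` and `S_link` (invariance of
`Lk`). -/
def S_claw1 : Prop :=
  ∀ (V T : Type) [DecidableEq V] [DecidableEq T] (Y : SimpleGraph V) (col : T → Bool) (σ : T ≃ V)
    (x y z w : V), Y.Adj x y → Y.Adj x z → Y.Adj x w → y ≠ z → y ≠ w → z ≠ w →
    pc col σ y = pc col σ x → pc col σ z = !(pc col σ x) → pc col σ w = !(pc col σ x) →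
    Lk Y col σ (σ.symm x) (σ.symm y)

/-- LINK. (1) invariance: apply `Rch.relabel` with `ρ = swap a a' * swap b b'`. (2) symmetry.
(3) transitivity: with `g = swap a a' * swap b b'`, `h = swap c c' * swap b' b''` the state
`(g * h * g⁻¹).trans σ` can be reached, and `g h g⁻¹ = swap (g c) (g c') * swap b b''`. (The
permutations `ρ` with `Rch σ (ρ.trans σ)` which preserve the colours form a group, by
`Rch.relabel`.) -/
def S_link : Prop :=
  ∀ (V T : Type) [DecidableEq T] (Y : SimpleGraph V) (col : T → Bool),
    (∀ (σ τ : T ≃ V) (b b' : T), Rch Y col σ τ → col b = col b' → Lk Y col σ b b' →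
      Lk Y col τ b b') ∧
    (∀ (σ : T ≃ V) (b b' : T), col b = col b' → Lk Y col σ b b' → Lk Y col σ b' b) ∧
    (∀ (σ : T ≃ V) (b b' b'' : T), col b = col b' → col b' = col b'' → b ≠ b' → b' ≠ b'' →
      b ≠ b'' → Lk Y col σ b b' → Lk Y col σ b' b'' → Lk Y col σ b b'')

/-- ADJ. Choose a state `τ` which can be reached and two tokens `b₁, b₁'` with `D Y col τ b₁ b₁'`
and `col b₁ = col b` such that the distance `Y.dist (τ b₁) (τ b₁')` is minimal (strong induction
on the distance). If it is one, done. Otherwise let `p` be the vertex after `τ b₁` on a shortest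
path. If the token on `p` is white, exchange it with `b₁` (the distance becomes smaller; `D` is
invariant by `S_link`). If it is the black token `x`, then `D b₁ x` (distance one) or `D x b₁'`
(distance smaller by one), by transitivity. -/
def S_adj : Prop :=
  ∀ (V T : Type) [Fintype V] [DecidableEq V] [DecidableEq T] (Y : SimpleGraph V)
    (col : T → Bool), Y.Connected → ∀ (σ : T ≃ V) (b b' : T), D Y col σ b b' →
    ∃ (τ : T ≃ V) (b₁ b₁' : T), Rch Y col σ τ ∧ FSt Y col τ b₁ b₁' ∧ col b₁ = col b

/-- A state of type `Ia`: some white token is connected, avoiding `u = σ b` and `v = σ b'`, to a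
neighbour of `u` and to a neighbour of `v`. -/
def Ia {V T : Type} [DecidableEq T] (Y : SimpleGraph V) (col : T → Bool) (σ : T ≃ V)
    (b b' : T) : Prop :=
  FSt Y col σ b b' ∧ ∃ s w w' : V, pc col σ s = !(col b) ∧ Y.Adj (σ b) w ∧ w ≠ σ b' ∧
    Y.Adj (σ b') w' ∧ w' ≠ σ b ∧ Av Y (σ b) (σ b') s w ∧ Av Y (σ b) (σ b') s w'

/-- The structure of a state of type `Ia`: all white tokens are in one component `K₀` of
`Y - u - v`, and `K₀` is adjacent to `u` only in `w`, and to `v` only in `w' ≠ w`. -/
structure IaF {V T : Type} [DecidableEq T] (Y : SimpleGraph V) (col : T → Bool) (σ : T ≃ V)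
    (b b' : T) (w w' : V) : Prop where
  st : FSt Y col σ b b'
  uw : Y.Adj (σ b) w
  wv : w ≠ σ b'
  vw : Y.Adj (σ b') w'
  wu : w' ≠ σ b
  con : Av Y (σ b) (σ b') w w'
  all : ∀ s, pc col σ s = !(col b) → Av Y (σ b) (σ b') s w
  uniq : ∀ z, Y.Adj (σ b) z → z ≠ σ b' → Av Y (σ b) (σ b') z w → z = w
  uniq' : ∀ z, Y.Adj (σ b') z → z ≠ σ b → Av Y (σ b) (σ b') z w → z = w'
  ne : w ≠ w'

/-- NOTWO: in a state with `FSt` one cannot bring two white tokens to two neighbours `w ≠ w'` of
`u` (both different from `v`). By `S_two` (with `P x = (x ≠ u ∧ x ≠ v)`, so the tokens on `u` and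
`v` stay) we reach a state with white tokens on `w`, `w'`; then `S_claw1` with centre `u`, leaves
`v, w, w'`, and `S_link` give `Lk Y col σ b b'`, a contradiction. -/
def S_notwo : Prop :=
  ∀ (V T : Type) [DecidableEq V] [DecidableEq T] (Y : SimpleGraph V) (col : T → Bool) (σ : T ≃ V)
    (b b' : T) (s s' w w' : V), FSt Y col σ b b' → pc col σ s = !(col b) →
    pc col σ s' = !(col b) → s ≠ s' → w ≠ w' → Y.Adj (σ b) w → Y.Adj (σ b) w' → w ≠ σ b' →
    w' ≠ σ b' → Av Y (σ b) (σ b') s w → Av Y (σ b) (σ b') s' w' → False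

/-- IaA. Let `s, w, w'` be as in `Ia`.
(a1) every white `s'` is connected to `w` avoiding `u, v`: as `Y` is connected, `s'` is connected
(avoiding `u, v`) to a neighbour `w₁` of `u` or of `v`; if it is not connected to `w` then
`w₁ ≠ w` (respectively `w₁ ≠ w'`) and `S_notwo` gives a contradiction (for `v` apply it to
`b', b`: `FSt` is symmetric, and `s ≠ s'`).
(a2) uniqueness: if `z ≠ w` is a neighbour of `u`, `z ≠ v`, connected to `w`, then the two white
tokens are both connected to `w` and `z`: `S_notwo`. The same for `v` and `w'`.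
(a3) `w ≠ w'`: suppose `w = w'`. By (a1) and since there are two white tokens the component of `w`
has another vertex, so `w` has a neighbour `w₃ ≠ u, v`. Bring white tokens to `w` and `w₃`
(`S_two`). Move `b` from `u` to `w` (the white token goes to `u`), then `b'` from `v` to `u` (the
white token goes to `v`). Now `w` is the centre of a claw with leaves `u` (token `b'`), `v`
(white), `w₃` (white): `S_claw1` and `S_link` give `Lk Y col σ b b'`. -/
def S_IaA : Prop :=
  ∀ (V T : Type) [Fintype V] [DecidableEq V] [DecidableEq T] (Y : SimpleGraph V)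
    (col : T → Bool) (σ : T ≃ V) (b b' : T), Y.Connected → Ia Y col σ b b' →
    (∃ a a' : T, a ≠ a' ∧ col a = !(col b) ∧ col a' = !(col b)) →
    ∃ w w', IaF Y col σ b b' w w'

/-- IaB. Let `z ≠ v, w` be a neighbour of `u`. By `uniq` and `all` the token `x` on `z` is black
(and `x ≠ b, b'`), and `z` is not connected to `w` avoiding `u, v`.
`b' ~ x`: `w` has a neighbour `w₃ ≠ u, v` (the component of `w` contains two white tokens). Bring
white tokens to `w` and `w₃` (`S_two`; `z` is not in the component: its token does not change; to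
see this take for `P` the component of `w`). Move `b` from `u` to `w` and then to `w₃`. Now `u` and
`w` are white, `v` has `b'` and `z` has `x`: `S_claw2` with centre `u`.
`b ~ x`: bring white tokens to `w` and `w'` (`w ≠ w'`). Move `b'` from `v` to `w'`. Now `u` has
`b`, `z` has `x`, `v` and `w` are white: `S_claw1` with centre `u` and leaves `z, v, w`.
By `S_link`, `b ~ b'`, a contradiction. -/
def S_IaB : Prop :=
  ∀ (V T : Type) [Fintype V] [DecidableEq V] [DecidableEq T] (Y : SimpleGraph V)
    (col : T → Bool) (σ : T ≃ V) (b b' : T) (w w' : V), IaF Y col σ b b' w w' →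
    (∃ a a' : T, a ≠ a' ∧ col a = !(col b) ∧ col a' = !(col b)) →
    ∀ z, Y.Adj (σ b) z → z = σ b' ∨ z = w

/-- IaC. The pair moves forward. Bring a white token to `w` (`S_slide`, if it is not already there),
move `b` from `u` to `w` and `b'` from `v` to `u`; now `v` is white. `FSt` holds by `S_link`. To see
that it is of type `Ia` with `s = v`: the neighbour of the new back vertex `u` is `v` (it is not
`w`). The neighbour of the new front vertex `w` is the vertex `w₄` after the last visit to `w` of
the walk from `w` to `w'` which avoids `u, v` (`w ≠ w'`): then `w₄` is connected to `w'` avoiding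
`u, v, w`, and `w'` is adjacent to `v`; so `v` and `w₄` are connected avoiding `w, u`, and
`w₄ ≠ u`. -/
def S_IaC : Prop :=
  ∀ (V T : Type) [Fintype V] [DecidableEq V] [DecidableEq T] (Y : SimpleGraph V)
    (col : T → Bool) (σ : T ≃ V) (b b' : T) (w w' : V), IaF Y col σ b b' w w' →
    (∃ a : T, col a = !(col b)) →
    ∃ τ : T ≃ V, Ia Y col τ b b' ∧ τ b = w ∧ τ b' = σ b

/-- CYC. A finite connected graph in which every vertex has exactly two neighbours is a cycle.
(Compare `Pool/Graph/R_seed8/Helper431/CycleIso.lean`, which has this with 63 files behind it; a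
direct short proof is wanted.) -/
def S_cyc : Prop :=
  ∀ (V : Type) [Fintype V] (Y : SimpleGraph V), Y.Connected →
    (∀ x, (Y.neighborSet x).ncard = 2) → Nonempty (Y ≃g cycleGraph (Fintype.card V))

/-- MAX. Call a white vertex `s` attached to `u` if it is connected, avoiding `u, v`, to a neighbour
`w ≠ v` of `u`. Choose the state `τ` and the black tokens `c, c'` with `FSt Y col τ c c'` such that
the number of white vertices attached to `u = τ c` is as large as possible. Suppose that a white
`s₀` is not attached to `u`. As `Y` is connected it is attached to `v = τ c'`, via a neighbour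
`w' ≠ u` of `v`. Slide it to `w'` (`S_slide` with `P x = (x ≠ u ∧ x ≠ v)`; if `w'` is not yet
white), exchange it with `c'` (now `c'` is on `w'`, `v` is white), then exchange `c` and the white
token on `v` (`c` is on `v`, `u` is white). This is a state `τ₂` with `FSt` (`S_link`), front vertex
`v`, back vertex `w'`. Every white `s` which was attached to `u` is still white (only `s₀`, `w'`
changed in `Y - u - v`; `s ≠ s₀`; `s ≠ w'` because `s` is not connected to `w'`, since the state is
not of type `Ia`), and it is connected to `u` avoiding `v, w'` (the walk from `s` to `w`, avoiding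
`u, v`, does not meet `w'`, for the same reason), so it is attached to `v`; and `u` is a new white
vertex attached to `v`. So the number has increased. -/
def S_max : Prop :=
  ∀ (V T : Type) [Fintype V] [DecidableEq V] [Fintype T] [DecidableEq T] (Y : SimpleGraph V)
    (col : T → Bool) (β : Bool), Y.Connected →
    (∀ (τ : T ≃ V) (c c' : T), col c = β → ¬ Ia Y col τ c c') →
    ∀ (σ : T ≃ V) (b b' : T), col b = β → FSt Y col σ b b' →
    ∃ (τ : T ≃ V) (c c' : T), FSt Y col τ c c' ∧ col c = β ∧
      ∀ s, pc col τ s = !β → ∃ w, Y.Adj (τ c) w ∧ w ≠ τ c' ∧ Av Y (τ c) (τ c') s w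

/-- FRONT. All white tokens are attached to `u`, the state is not of type `Ia`, and there are two
white tokens. By `S_notwo` all white tokens are connected (avoiding `u, v`) to one neighbour
`w ≠ v` of `u`, and this is the only neighbour of `u` in the component `K` of `w` in `Y - u - v`;
`K` has no neighbour of `v` because the state is not of type `Ia`. Take
`K = {x | x ≠ u, x ≠ v, Av Y u v x w}`. -/
def S_front : Prop :=
  ∀ (V T : Type) [Fintype V] [DecidableEq V] [DecidableEq T] (Y : SimpleGraph V)
    (col : T → Bool) (σ : T ≃ V) (b b' : T), FSt Y col σ b b' → ¬ Ia Y col σ b b' →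
    (∃ a a' : T, a ≠ a' ∧ col a = !(col b) ∧ col a' = !(col b)) →
    (∀ s, pc col σ s = !(col b) → ∃ w, Y.Adj (σ b) w ∧ w ≠ σ b' ∧ Av Y (σ b) (σ b') s w) →
    ∃ (w : V) (K : Finset V), Y.Adj (σ b) w ∧ w ∈ K ∧ σ b ∉ K ∧ σ b' ∉ K ∧
      (∀ x ∈ K, ∀ y, Y.Adj x y → y ∈ K ∨ (x = w ∧ y = σ b)) ∧
      (∀ x ∈ K, Cn Y (fun z => z ∈ K) w x) ∧ (∀ s, pc col σ s = !(col b) → s ∈ K)

/-- DRIVE. `b'` is on `p 0`, `b` on `p 1`, white tokens on `p 2, ..., p (j+1)`. Induction on `j`:
drive to `j`, then exchange `b` (on `p j`) with the white token on `p (j+1)`, then `b'` (on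
`p (j-1)`) with the white token on `p j`. (In the induction hypothesis also keep that
`p (j+1), ...` are not changed.) -/
def S_drive : Prop :=
  ∀ (V T : Type) [DecidableEq V] [DecidableEq T] (Y : SimpleGraph V) (col : T → Bool) (σ : T ≃ V)
    (b b' : T) (p : ℕ → V) (j : ℕ), b ≠ b' → col b = col b' →
    (∀ i i', i ≤ j + 1 → i' ≤ j + 1 → p i = p i' → i = i') →
    (∀ i, i ≤ j → Y.Adj (p i) (p (i + 1))) → σ b' = p 0 → σ b = p 1 →
    (∀ i, 2 ≤ i → i ≤ j + 1 → pc col σ (p i) = !(col b)) →
    ∃ τ : T ≃ V, Rch Y col σ τ ∧ τ b' = p j ∧ τ b = p (j + 1) ∧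
      ∀ x, (∀ i, i ≤ j + 1 → x ≠ p i) → τ.symm x = σ.symm x

/-- NOCLAW. Apply `S_bring` with `P x = (x ≠ σ b ∧ x ≠ σ b')` and
`Z = {p 2, ..., p (j+1), y, y'}` (it has `j + 2` elements), then `S_drive`, then `S_claw1` with
centre `p (j+1)` (token `b`) and leaves `p j` (token `b'`), `y`, `y'` (white), then `S_link`. -/
def S_noclaw : Prop :=
  ∀ (V T : Type) [Fintype V] [DecidableEq V] [DecidableEq T] (Y : SimpleGraph V)
    (col : T → Bool) (σ : T ≃ V) (b b' : T) (K : Finset V) (p : ℕ → V) (j : ℕ) (y y' : V),
    FSt Y col σ b b' → (∀ x ∈ K, ∀ z ∈ K, Av Y (σ b) (σ b') x z) → σ b ∉ K → σ b' ∉ K →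
    (∀ i i', i ≤ j + 1 → i' ≤ j + 1 → p i = p i' → i = i') →
    (∀ i, i ≤ j → Y.Adj (p i) (p (i + 1))) → σ b' = p 0 → σ b = p 1 →
    (∀ i, 2 ≤ i → i ≤ j + 1 → p i ∈ K) → y ∈ K → y' ∈ K → y ≠ y' →
    (∀ i, i ≤ j + 1 → y ≠ p i) → (∀ i, i ≤ j + 1 → y' ≠ p i) →
    Y.Adj (p (j + 1)) y → Y.Adj (p (j + 1)) y' →
    j + 2 ≤ (K.filter (fun x => pc col σ x = !(col b))).card → False

/-- GRAPH (no tokens). `K` is a connected set of at least `k` vertices, attached to the rest of the
graph only by the edge `u w`, and `u` has a neighbour `v` outside of `K`. Suppose that there is no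
path `v = p 0, u = p 1, w = p 2, ..., p (j+1)`, `1 ≤ j`, `j + 2 ≤ k`, whose last vertex has two
neighbours in `K` which are not on the path. Then `u = p 1, p 2, ..., p k` is a non-trivial
`k`-bridge: construct the `p i` one after the other; `p (i+1)` (`1 ≤ i ≤ k - 2`) has exactly one
neighbour which is not on the path: not two by assumption, and if there is none then
`K = {p 2, ..., p (i+1)}` has less than `k` elements (closed under adjacency, `K` connected). For
the same reason `p k` has a neighbour which is not on the path. A vertex `p (i+1)` with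
`1 ≤ i ≤ k - 2` has exactly the neighbours `p i` and `p (i+2)` (it is not adjacent to `p l` for
`l < i`: these have their two neighbours `p (l-1)`, `p (l+1)`, and `p 1 = u` is adjacent in `K` only
to `w = p 2`). All edges `p i p (i+1)`, `1 ≤ i < k`, are bridges: the set
`K \ {p 2, ..., p i}` is closed under adjacency after the deletion of the edge. -/
def S_graph : Prop :=
  ∀ (V : Type) [Fintype V] [DecidableEq V] (Y : SimpleGraph V) (u v w : V) (K : Finset V)
    (k : ℕ), 2 ≤ k → k ≤ K.card → u ∉ K → v ∉ K → Y.Adj u v → Y.Adj u w → w ∈ K →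
    (∀ x ∈ K, ∀ y, Y.Adj x y → y ∈ K ∨ (x = w ∧ y = u)) →
    (∀ x ∈ K, Cn Y (fun z => z ∈ K) w x) →
    (∀ (p : ℕ → V) (j : ℕ), 1 ≤ j → j + 2 ≤ k → p 0 = v → p 1 = u → p 2 = w →
      (∀ i i', i ≤ j + 1 → i' ≤ j + 1 → p i = p i' → i = i') →
      (∀ i, i ≤ j → Y.Adj (p i) (p (i + 1))) → (∀ i, 2 ≤ i → i ≤ j + 1 → p i ∈ K) →
      ∀ y y', y ∈ K → y' ∈ K → y ≠ y' → (∀ i, i ≤ j + 1 → y ≠ p i) →
        (∀ i, i ≤ j + 1 → y' ≠ p i) → Y.Adj (p (j + 1)) y → Y.Adj (p (j + 1)) y' → False) →
    HasBridge Y k

/-- GROUP. For `α : Perm A` there is `β` with `(α, β) ∈ H` and `sign β = sign α`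
(`Equiv.Perm.swap_induction_on`); similarly with `A`, `B` exchanged. So
`N = {β | (1, β) ∈ H}` is a normal subgroup of `Perm B`, and it contains an odd permutation `π` (by
the third hypothesis). Then `N = ⊤`: (c1) if `π` fixes `c` and moves `b`, the commutator of `π` and
`swap b c` is `swap (π b) c * swap b c`, a three-cycle; (c2) if `π (π b) ≠ b` take
`c = π⁻¹ b`: the commutator of `π` and `swap b c` is `swap (π b) b * swap b c`, a three-cycle; then
all three-cycles are in `N`, so `alternatingGroup B ≤ N`
(`Equiv.Perm.closure_three_cycles_eq_alternating`), and `π` is odd. (c3) Otherwise `π` is an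
involution without fixed points; if `B` has two elements `π` is the swap; if `B` has four elements
`π` is even; otherwise take `b, b' = π b, c, c' = π c` and `e` different from these:
`swap b' c' * swap b c ∈ N` (commutator of `π` and `swap b c`), and its conjugate
`swap b' c' * swap b e ∈ N`; the product `swap b c * swap b e` is a three-cycle. Finally, as
`(swap a a', swap b b') ∈ H` and `(1, swap b b') ∈ H`, all `(swap a a', 1) ∈ H`. -/
def S_group : Prop :=
  ∀ (A B : Type) [Fintype A] [DecidableEq A] [Fintype B] [DecidableEq B]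
    (H : Subgroup (Equiv.Perm A × Equiv.Perm B)),
    (∀ a a' : A, a ≠ a' → ∃ b b' : B, b ≠ b' ∧ (Equiv.swap a a', Equiv.swap b b') ∈ H) →
    (∀ b b' : B, b ≠ b' → ∃ a a' : A, a ≠ a' ∧ (Equiv.swap a a', Equiv.swap b b') ∈ H) →
    (∃ α β, (α, β) ∈ H ∧ Equiv.Perm.sign α * Equiv.Perm.sign β = -1) → H = ⊤

/-- UNL. From `σ` one can reach a state in which the tokens of `A` occupy the same vertices as in
`τ`: induction on the number of vertices whose colours in `σ` and in `τ` differ; if there is
one, there are `s`, `s'` such that `s` has an `A`-token in `σ` and not in `τ`, and `s'` the other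
way round (the numbers of `A`-vertices are equal); use `S_slide` with `P = True`. At the end
`σ` and `τ` have the same `A`-vertices, and `σ.trans τ.symm` maps `A` to `A` and `B` to `B`
(`Equiv.Perm.mem_sumCongrHom_range_of_perm_mapsTo_inl`). -/
def S_unl : Prop :=
  ∀ (A B V : Type) [Fintype A] [DecidableEq A] [Fintype B] [DecidableEq B] [Fintype V]
    [DecidableEq V] (Y : SimpleGraph V), Y.Connected → ∀ σ τ : (A ⊕ B) ≃ V,
    ∃ (α : Equiv.Perm A) (β : Equiv.Perm B),
      Rch Y Sum.isLeft σ ((Equiv.sumCongr α β).trans τ)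

/-- ODD. Fix `r` and put `c x = Y.dist r x` modulo 2. Let `Y'` be the subgraph of the edges `x y`
with `c x ≠ c y`; it is connected (a vertex at distance `m + 1` from `r` has a neighbour at distance
`m`). Invariant of `Y'`-moves: if `Rch Y' σ τ` then
`sign (σ.trans τ.symm) = (-1) ^ (number of A-tokens on vertices with c = 1 in σ, plus the same
for τ)`: a move along an edge `x y` of `Y'` composes with one transposition and changes the number
by one. As `Y` is not 2-colourable there is an edge `x y` of `Y` with `c x = c y`. Take a state `σ`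
with an `A`-token `a` on `x` and a `B`-token `b` on `y`; `σ₁` = `σ` after the exchange of `a`,
`b` (a move in `Y`). By `S_unl` for `Y'` there is `σ₂ = (sumCongr α β).trans σ` with
`Rch Y' σ₁ σ₂`. The number of `A`-tokens on vertices with `c = 1` is the same for
`σ, σ₁, σ₂`, so `sign (sumCongr α β) = -1` (one transposition from `σ` to `σ₁`, even from `σ₁`
to `σ₂`); `Equiv.Perm.sign_sumCongr`. -/
def S_odd : Prop :=
  ∀ (A B V : Type) [Fintype A] [DecidableEq A] [Fintype B] [DecidableEq B] [Fintype V]
    [DecidableEq V] (Y : SimpleGraph V), Y.Connected → ¬ Y.Colorable 2 → Nonempty A →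
    Nonempty B → Nonempty ((A ⊕ B) ≃ V) →
    ∃ (σ : (A ⊕ B) ≃ V) (α : Equiv.Perm A) (β : Equiv.Perm B),
      Rch Y Sum.isLeft σ ((Equiv.sumCongr α β).trans σ) ∧
      Equiv.Perm.sign α * Equiv.Perm.sign β = -1

end Pool.Agent.H83.FS
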